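import Pool.Agent.Lib.MP_d7b9cc_gt.K3

/-! One ball fills the Kodaira-Thurston manifolds, for every invariant symplectic form. -/

open scoped ContDiff

namespace Pool.Agent.Results.MP_d7b9cc_gt.KodairaThurston

/-- The standard symplectic form `dx₁ ∧ dy₁ + dx₂ ∧ dy₂` on `ℂ² = ℝ⁴`. -/
def sympForm (v w : ℂ × ℂ) : ℝ :=
  (v.1.re * w.1.im - v.1.im * w.1.re) + (v.2.re * w.2.im - v.2.im * w.2.re)

/-- The element `(m, n, p, q)` of the lattice `Γ_k` acting on `ℝ⁴`. -/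
def deck (k m n p q : ℤ) (x : ℝ × ℝ × ℝ × ℝ) : ℝ × ℝ × ℝ × ℝ :=
  (x.1 + m, x.2.1 + n, x.2.2.1 + k * m * x.2.1 + p, x.2.2.2 + q)

/-- The invariant coframe `dx₁`, `dx₂`, `dx₃ - k x₁ dx₂`, `dx₄` at `x`, evaluated on `v`. -/
def coframe (k : ℤ) (x v : ℝ × ℝ × ℝ × ℝ) : Fin 4 → ℝ :=
  ![v.1, v.2.1, v.2.2.1 - k * x.1 * v.2.1, v.2.2.2]

/-- The wedge product of two members of the coframe. -/
def wedge (k : ℤ) (i j : Fin 4) (x v w : ℝ × ℝ × ℝ × ℝ) : ℝ :=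
  coframe k x v i * coframe k x w j - coframe k x v j * coframe k x w i

/-- The invariant form `α e¹³ + β e²³ + γ e¹⁴ + δ e²⁴ + ε e¹²`. -/
def ktForm (k : ℤ) (α β γ δ ε : ℝ) (x v w : ℝ × ℝ × ℝ × ℝ) : ℝ :=
  α * wedge k 0 2 x v w + β * wedge k 1 2 x v w + γ * wedge k 0 3 x v w +
    δ * wedge k 1 3 x v w + ε * wedge k 0 1 x v w

open Pool.Agent.Lib.BallT6 Pool.Agent.Lib.BallPT in
theorem result (k : ℤ) (α β γ δ ε r : ℝ) (hv : (Real.pi * r ^ 2) ^ 2 / 2 < |α * δ - β * γ|) :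
    ∃ (U : Set (ℂ × ℂ)) (ψ : ℂ × ℂ → ℝ × ℝ × ℝ × ℝ), IsOpen U ∧
      (∀ z : ℂ × ℂ, ‖z.1‖ ^ 2 + ‖z.2‖ ^ 2 ≤ r ^ 2 → z ∈ U) ∧
      ContDiffOn ℝ ∞ ψ U ∧
      (∀ z ∈ U, ∀ v w,
        ktForm k α β γ δ ε (ψ z) (fderiv ℝ ψ z v) (fderiv ℝ ψ z w) = sympForm v w) ∧
      ∀ z ∈ U, ∀ z' ∈ U, ∀ m n p q : ℤ, ψ z' = deck k m n p q (ψ z) → z = z' := by
  have h0 : 0 ≤ Real.pi * r ^ 2 := by positivity
  have h1 : Real.pi * r ^ 2 < Real.sqrt (2 * |α * δ - β * γ|) :=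
    Real.lt_sqrt_of_sq_lt (by linarith)
  obtain ⟨ρ, r1, r2⟩ := exists_between h1
  obtain ⟨x₁, x₂, y₁, y₂, c1, c2, c3, c4, s, base, fib⟩ := lag_all (h0.trans_lt r1)
    ((Real.lt_sqrt (h0.trans r1.le)).mp r2)
  obtain ⟨D, hD⟩ : ∃ D, D = α * δ - β * γ := ⟨_, rfl⟩
  have d0 : D ≠ 0 := abs_pos.mp (by rw [hD]; nlinarith [sq_nonneg (Real.pi * r ^ 2)])
  have c5 : ContDiff ℝ ∞ fun z => x₁ z * x₁ z := c1.mul c1
  have c6 := cd_lin c1 c5 (ε / D) (-(k * α / (2 * D)))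
  have c7 := cd_lin c3 c6 1 (-γ)
  have c8 := cd_lin c4 c6 1 α
  have cm : Continuous mu := contDiff_mu.continuous
  refine ⟨{p | mu p.1 + mu p.2 < ρ}, _,
    isOpen_lt ((cm.comp continuous_fst).add (cm.comp continuous_snd)) continuous_const,
    fun z hz => ?_, (c1.prodMk (c2.prodMk (c7.prodMk c8))).contDiffOn, fun z hz v w => ?_,
    fun z hz z' hz' m n p q e => ?_⟩
  · show mu z.1 + mu z.2 < ρ
    rw [mu_eq_norm, mu_eq_norm]
    nlinarith [Real.pi_pos]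
  · rw [((c1.differentiable (by simp) z).hasFDerivAt.prodMk
      ((c2.differentiable (by simp) z).hasFDerivAt.prodMk
        ((c7.differentiable (by simp) z).hasFDerivAt.prodMk
          (c8.differentiable (by simp) z).hasFDerivAt))).fderiv]
    have e7 := dv_lin c3 c6 1 (-γ) z
    have e8 := dv_lin c4 c6 1 α z
    simp only [dv_lin c1 c5, dv_mul c1.contDiffAt c1.contDiffAt] at e7 e8
    have := s z (le_of_lt hz) v w
    simp only [wd, dv] at this e7 e8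
    simp only [ktForm, wedge, coframe, ContinuousLinearMap.prod_apply, Matrix.cons_val_zero,
      Matrix.cons_val_one, Matrix.cons_val, e7, e8]
    refine Eq.trans ?_ this
    field_simp
    rw [hD]
    ring
  · simp only [deck, Prod.mk.injEq] at e
    obtain ⟨e1, e2, e3, e4⟩ := e
    obtain ⟨rfl, rfl⟩ := base z z' (le_of_lt hz) (le_of_lt hz') m n e1 e2
    simp only [Int.cast_zero, add_zero, mul_zero, zero_mul] at e1 e2 e3
    rw [e1] at e3 e4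
    exact fib z z' (le_of_lt hz) (le_of_lt hz') e1 e2 p q (by linarith) (by linarith)

end Pool.Agent.Results.MP_d7b9cc_gt.KodairaThurston
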