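import Pool.Agent.Lib.MP_d7b9cc_gt.K2

/-! One ball fills every product of two punctured tori, and it crosses one level of the second
torus only over a rectangle of the first. -/

open scoped ContDiff

namespace Pool.Agent.Results.MP_d7b9cc_gt.MappingTori

/-- The standard symplectic form `dx₁ ∧ dy₁ + dx₂ ∧ dy₂` on `ℂ² = ℝ⁴`. -/
def sympForm (v w : ℂ × ℂ) : ℝ :=
  (v.1.re * w.1.im - v.1.im * w.1.re) + (v.2.re * w.2.im - v.2.im * w.2.re)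

/-- The lattice `cℤ + iℤ` in `ℂ`. -/
def lattice (c : ℝ) : Set ℂ := {z | ∃ k l : ℤ, z = (k : ℂ) * (c : ℂ) + (l : ℂ) * Complex.I}

open Pool.Agent.Lib.BallT6 Pool.Agent.Lib.BallPT in
theorem result (a b r : ℝ) (ha : 0 < a) (hb : 0 < b) (hv : (Real.pi * r ^ 2) ^ 2 / 2 < a * b) :
    ∃ (U : Set (ℂ × ℂ)) (ψ : ℂ × ℂ → ℂ × ℂ), IsOpen U ∧
      (∀ z : ℂ × ℂ, ‖z.1‖ ^ 2 + ‖z.2‖ ^ 2 ≤ r ^ 2 → z ∈ U) ∧
      ContDiffOn ℝ ∞ ψ U ∧
      (∀ z ∈ U, ∀ v w, sympForm (fderiv ℝ ψ z v) (fderiv ℝ ψ z w) = sympForm v w) ∧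
      (∀ z ∈ U, (ψ z).1 ∉ lattice a ∧ (ψ z).2 ∉ lattice b) ∧
      (∀ z ∈ U, ∀ z' ∈ U, (ψ z').1 - (ψ z).1 ∈ lattice a → (ψ z').2 - (ψ z).2 ∈ lattice b →
        z = z') ∧
      ∃ c d : ℝ, ∀ z ∈ U, ∀ l : ℤ, (ψ z).2.re = c + l * b →
        (ψ z).1.re ∈ Set.Ioo d (d + a) ∧ (ψ z).1.im ∈ Set.Ioo (0 : ℝ) 1 := by
  have h0 : 0 ≤ Real.pi * r ^ 2 := by positivity
  have h1 : Real.pi * r ^ 2 < Real.sqrt (2 * a * b) := Real.lt_sqrt_of_sq_lt (by linarith)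
  obtain ⟨ρ, r1, r2⟩ := exists_between h1
  obtain ⟨F, G, ⟨hF, hG, s, x, y, i⟩, -, c, d, cut⟩ := emb_all2 ha hb (h0.trans r1.le)
    ((Real.lt_sqrt (h0.trans r1.le)).mp r2)
  have cm : Continuous mu := contDiff_mu.continuous
  refine ⟨{p | mu p.1 + mu p.2 < ρ}, fun p => (F p, G p),
    isOpen_lt ((cm.comp continuous_fst).add (cm.comp continuous_snd)) continuous_const,
    fun z hz => ?_, (hF.prodMk hG).contDiffOn, fun z hz v w => ?_,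
    fun z hz => ⟨fun ⟨k, l, e⟩ => x z (le_of_lt hz) k l e, fun ⟨k, l, e⟩ => y z (le_of_lt hz) k l e⟩,
    fun z hz z' hz' e e' => i z z' (le_of_lt hz) (le_of_lt hz') e e', c, d, fun z hz l e => ?_⟩
  · show mu z.1 + mu z.2 < ρ
    rw [mu_eq_norm, mu_eq_norm]
    nlinarith [Real.pi_pos]
  · rw [((hF.differentiable (by simp) z).hasFDerivAt.prodMk
      (hG.differentiable (by simp) z).hasFDerivAt).fderiv]
    exact s z (le_of_lt hz) v w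
  · obtain ⟨p1, p2, p3⟩ := cut z (le_of_lt hz) l e
    exact ⟨⟨p1, p2⟩, p3⟩

end Pool.Agent.Results.MP_d7b9cc_gt.MappingTori
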