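import Pool.Agent.Lib.MP_d7b9cc_gt.W.Main

/-! All packings by balls of a punctured torus times an ellipsoid with integral axis ratios. -/

open scoped ContDiff

namespace Pool.Agent.Results.MP_d7b9cc_gt.RationalEllipsoids

/-- The standard symplectic form `∑ dxⱼ ∧ dyⱼ` on `ℂⁿ = ℝ²ⁿ`. -/
def sympForm {n : ℕ} (a b : Fin n → ℂ) : ℝ :=
  ∑ j, ((a j).re * (b j).im - (a j).im * (b j).re)

open Pool.Agent.Lib.BallT6 Pool.Agent.Lib.BallU Pool.Agent.Lib.BallW Finset in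
theorem result (N k : ℕ) (m : Fin N → ℕ) (a b : ℝ) (r : Fin k → ℝ) (hm : ∀ j, 0 < m j)
    (ha0 : 0 < a) (hb : 0 < b) (ha : ∀ i, Real.pi * r i ^ 2 < a)
    (hv : ∑ i, (Real.pi * r i ^ 2) ^ (N + 1) < (N + 1) * (∏ j, (m j * a)) * b) :
    ∃ (U : Fin k → Set (Fin (N + 1) → ℂ)) (ψ : Fin k → (Fin (N + 1) → ℂ) → Fin (N + 1) → ℂ),
      (∀ i, IsOpen (U i) ∧
        (∀ z : Fin (N + 1) → ℂ, ∑ j, ‖z j‖ ^ 2 ≤ r i ^ 2 → z ∈ U i) ∧
        ContDiffOn ℝ ∞ (ψ i) (U i) ∧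
        (∀ z ∈ U i, ∀ v w,
          sympForm (fderiv ℝ (ψ i) z v) (fderiv ℝ (ψ i) z w) = sympForm v w) ∧
        (∀ z ∈ U i, Real.pi * ∑ j : Fin N, ‖ψ i z j.succ‖ ^ 2 / (m j * a) < 1) ∧
        ∀ z ∈ U i, ∀ s t : ℤ, ψ i z 0 ≠ (s : ℂ) * (b : ℂ) + (t : ℂ) * Complex.I) ∧
      ∀ i i', ∀ z ∈ U i, ∀ z' ∈ U i', (∀ j : Fin N, ψ i z j.succ = ψ i' z' j.succ) →
        (∃ s t : ℤ, ψ i' z' 0 - ψ i z 0 = (s : ℂ) * (b : ℂ) + (t : ℂ) * Complex.I) →
          i = i' ∧ z = z' := by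
  let w : ℕ → ℝ := fun i => if h : i < k then Real.pi * r ⟨i, h⟩ ^ 2 else 0
  have hw : ∀ i : Fin k, w i = Real.pi * r i ^ 2 := fun i => dif_pos i.2
  have w0 : ∀ i, 0 ≤ w i := fun i => by
    simp only [w]
    split_ifs
    · positivity
    · exact le_rfl
  let n : ℕ → ℕ := fun l => if h : l < N then m ⟨l, h⟩ else 1
  have hn : ∀ j : Fin N, n j = m j := fun j => dif_pos j.2
  have n0 : ∀ l, 0 < n l := fun l => by
    simp only [n]
    split_ifs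
    · exact hm _
    · exact one_pos
  have hM : ∏ j, ((m j : ℝ) * a) = (∏ l ∈ range N, n l : ℕ) * a ^ N := by
    rw [prod_mul_distrib, prod_const, card_univ, Fintype.card_fin, ← Fin.prod_univ_eq_prod_range n,
      Nat.cast_prod]
    simp only [hn]
  obtain ⟨B, hB, m0, m1, m2⟩ := exists_mmesh N k (a := a) (b' := (∏ l ∈ range N, n l : ℕ) * b)
    1 1 w ha0 (fun i hi => (hw ⟨i, hi⟩).trans_lt (ha _)) (by
      rw [← Fin.sum_univ_eq_sum_range (fun i => w i ^ (N + 1))]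
      simp only [hw]
      refine hv.trans_eq ?_
      rw [hM]
      ring)
  have hd : (0 : ℝ) < 1 / B := by positivity
  have he : (0 : ℝ) < 1 / B / (N + 1) := by positivity
  have he' : a - 1 / B + N * (1 / B / (N + 1)) < a := by
    have : ((N : ℝ) + 1) * (1 / B / (N + 1)) = 1 / B := by field_simp
    linarith
  obtain ⟨Ψ, A, C⟩ := balls_int (Fin (N + 1) → ℂ) N k n (fun i => w i + 1 * (1 / B)) n0 hb m0 he
    (fun i => by linarith [w0 i]) (fun i hi => m1 i (mem_range.2 hi)) (m2.trans_eq (by ring))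
  let Z : (Fin (N + 1) → ℂ) → ℕ → ℂ := fun x l => if h : l < N + 1 then x ⟨l, h⟩ else 0
  have hZ : ∀ x (j : Fin (N + 1)), Z x j = x j := fun x j => dif_pos j.2
  have hT : ∀ x, ∑ l ∈ range (N + 1), mu (Z x l) = Real.pi * ∑ j, ‖x j‖ ^ 2 := fun x => by
    rw [← Fin.sum_univ_eq_sum_range (fun l => mu (Z x l)), mul_sum]
    exact sum_congr rfl fun j _ => by rw [hZ, mu_eq_norm]
  have hS : ∀ p, Sm (N + 1) Z p := fun p l hl => by
    simp only [Z, dif_pos hl]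
    exact (contDiff_apply ℝ ℂ _).contDiffAt
  have hP : ∀ (F : (Fin (N + 1) → ℂ) → ℕ → ℂ) p, Sm (N + 1) F p → ∀ v w,
      sympForm (fderiv ℝ (fun x (j : Fin (N + 1)) => F x j) p v)
        (fderiv ℝ (fun x (j : Fin (N + 1)) => F x j) p w) = PB (N + 1) F p v w := by
    intro F p h v w
    rw [fderiv_pi fun j : Fin (N + 1) => ContDiffAt.da (h j j.2)]
    exact Fin.sum_univ_eq_sum_range (fun l => pb (fun x => F x l) p v w) (N + 1)
  have hU : ∀ (i : Fin k) (z : Fin (N + 1) → ℂ), Real.pi * ∑ j, ‖z j‖ ^ 2 < w i + 1 * (1 / B) →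
      ∑ l ∈ range (N + 1), mu (Z z l) ≤ w i + 1 * (1 / B) := fun i z hz => by
    rw [hT]
    exact hz.le
  refine ⟨fun i => {z | Real.pi * ∑ j, ‖z j‖ ^ 2 < w i + 1 * (1 / B)}, fun i x j => Ψ i (Z x) j,
    fun i => ⟨isOpen_lt (by fun_prop) continuous_const, fun z hz => ?_, fun z hz => ?_,
      fun z hz v u => ?_, fun z hz => ?_, fun z hz => (A i _ (hU i z hz)).2.2⟩,
    fun i i' z hz z' hz' e ⟨s, t, e'⟩ => ?_⟩
  · refine (mul_le_mul_of_nonneg_left hz Real.pi_pos.le).trans_lt ?_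
    rw [hw]
    linarith
  · exact (contDiffAt_pi.mpr fun j : Fin (N + 1) =>
      ((A i _ (hU i z hz)).1 Z z rfl (hS z)).1 j j.2).contDiffWithinAt
  · obtain ⟨c, d⟩ := (A i _ (hU i z hz)).1 Z z rfl (hS z)
    rw [hP _ z c, d, ← hP Z z (hS z)]
    simp only [hZ]
    rw [fderiv_fun_id]
    rfl
  · have := ((A i _ (hU i z hz)).2.1.trans he')
    rw [← Fin.sum_univ_eq_sum_range (fun l => mu (Ψ i (Z z) (l + 1)) / n l), ← div_lt_one ha0,
      sum_div] at this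
    simpa only [mu_eq_norm, mul_sum, Fin.val_succ, hn, div_div, mul_div_assoc] using this
  · obtain ⟨c, d⟩ := C i i' _ _ (hU i z hz) (hU i' z' hz') (fun j hj => e ⟨j, hj⟩) s t e'
    refine ⟨c, funext fun j => ?_⟩
    rw [← hZ z, ← hZ z']
    exact d j j.2

end Pool.Agent.Results.MP_d7b9cc_gt.RationalEllipsoids
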